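import Mathlib

/-!
Logarithm of unipotent elements of `ℚ`-algebras as a polynomial, inverse of `IsNilpotent.exp`.
-/

set_option autoImplicit false

namespace Pool.Agent.Lat

open Polynomial Finset

/-- truncated exponential of a polynomial -/
noncomputable def EP (n : ℕ) (L : ℚ[X]) : ℚ[X] := ∑ i ∈ range (n + 1), (i.factorial : ℚ)⁻¹ • L ^ i

theorem EP_succ (n : ℕ) (L : ℚ[X]) :
    EP (n + 1) L = EP n L + ((n + 1).factorial : ℚ)⁻¹ • L ^ (n + 1) := by
  rw [EP, sum_range_succ]; rfl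

/-- `(L - μ X^k)^i = L^i` modulo `X^(k+1)` if `X ∣ L`, `i ≥ 2`, `k ≥ 1` -/
theorem pow_sub_dvd (L M : ℚ[X]) (k : ℕ) (hL : X ∣ L) (hM : X ^ k ∣ M) (hk : 1 ≤ k) (i : ℕ) :
    X ^ (k + 1) ∣ (L + M) ^ (i + 2) - L ^ (i + 2) := by
  have h1 : X ^ k ∣ (L + M) ^ (i + 1) - L ^ (i + 1) := by
    have h := sub_dvd_pow_sub_pow (L + M) L (i + 1)
    rw [add_sub_cancel_left] at h
    exact hM.trans h
  have h2 : X ∣ (L + M) := dvd_add hL ((dvd_pow_self X (by omega)).trans hM)
  have e : (L + M) ^ (i + 2) - L ^ (i + 2)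
      = ((L + M) ^ (i + 1) - L ^ (i + 1)) * (L + M) + L ^ (i + 1) * M := by ring
  rw [e]
  refine dvd_add ?_ ?_
  · rw [pow_succ]; exact mul_dvd_mul h1 h2
  · have h3 : X ∣ L ^ (i + 1) := hL.trans (dvd_pow_self L (by omega))
    rw [pow_succ, mul_comm (X ^ k) X]
    exact mul_dvd_mul h3 hM

theorem EP_add_dvd (L M : ℚ[X]) (k n : ℕ) (hL : X ∣ L) (hM : X ^ k ∣ M) (hk : 1 ≤ k) :
    X ^ (k + 1) ∣ EP (n + 1) (L + M) - (EP (n + 1) L + M) := by
  induction n with
  | zero =>
    have : EP (0 + 1) (L + M) - (EP (0 + 1) L + M) = 0 := by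
      simp [EP, sum_range_succ]
      ring
    rw [this]; exact dvd_zero _
  | succ n ih =>
    rw [EP_succ (n + 1), EP_succ (n + 1)]
    have e : EP (n + 1) (L + M) + ((n + 1 + 1).factorial : ℚ)⁻¹ • (L + M) ^ (n + 1 + 1)
        - (EP (n + 1) L + ((n + 1 + 1).factorial : ℚ)⁻¹ • L ^ (n + 1 + 1) + M)
        = (EP (n + 1) (L + M) - (EP (n + 1) L + M))
          + ((n + 1 + 1).factorial : ℚ)⁻¹ • ((L + M) ^ (n + 2) - L ^ (n + 2)) := by
      rw [smul_sub]; ring
    rw [e]
    exact dvd_add ih (Dvd.dvd.trans (pow_sub_dvd L M k hL hM hk n) (Dvd.intro_left (C _)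
      (by rw [← smul_eq_C_mul])))

theorem exists_logPoly (n : ℕ) : ∃ L : ℚ[X], X ∣ L ∧ L.coeff 1 = 1 ∧
    X ^ (n + 2) ∣ EP (n + 1) L - (1 + X) := by
  induction n with
  | zero =>
    refine ⟨X, dvd_rfl, by simp, ?_⟩
    have : EP (0 + 1) X - (1 + X) = (0 : ℚ[X]) := by simp [EP, sum_range_succ]
    rw [this]; exact dvd_zero _
  | succ n ih =>
    obtain ⟨L, hL, h1, h2⟩ := ih
    have h3 : X ^ (n + 2) ∣ EP (n + 2) L - (1 + X) := by
      rw [EP_succ (n + 1)]
      have e : EP (n + 1) L + ((n + 1 + 1).factorial : ℚ)⁻¹ • L ^ (n + 1 + 1) - (1 + X)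
        = (EP (n + 1) L - (1 + X)) + ((n + 1 + 1).factorial : ℚ)⁻¹ • L ^ (n + 2) := by ring
      rw [e]
      refine dvd_add h2 ?_
      rw [smul_eq_C_mul]
      exact Dvd.dvd.mul_left (pow_dvd_pow_of_dvd hL _) _
    obtain ⟨q, hq⟩ := h3
    refine ⟨L + X ^ (n + 2) * (-C (q.coeff 0)), ?_, ?_, ?_⟩
    · exact dvd_add hL ((dvd_pow_self X (by omega)).trans (dvd_mul_right _ _))
    · rw [coeff_add, h1, coeff_X_pow_mul']
      simp
    · have h4 := EP_add_dvd L (X ^ (n + 2) * (-C (q.coeff 0))) (n + 2) (n + 1) hL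
        (dvd_mul_right _ _) (by omega)
      have e : EP (n + 1 + 1) (L + X ^ (n + 2) * (-C (q.coeff 0))) - (1 + X)
        = (EP (n + 1 + 1) (L + X ^ (n + 2) * (-C (q.coeff 0)))
            - (EP (n + 1 + 1) L + X ^ (n + 2) * (-C (q.coeff 0))))
          + X ^ (n + 2) * (q - C (q.coeff 0)) := by
        have : EP (n + 1 + 1) L = (1 + X) + X ^ (n + 2) * q := by
          rw [← hq]; ring
        rw [this]; ring
      rw [e]
      refine dvd_add h4 ?_
      have : X ∣ q - C (q.coeff 0) := by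
        rw [X_dvd_iff]; simp
      have h5 := mul_dvd_mul (dvd_refl (X ^ (n + 2) : ℚ[X])) this
      rwa [← pow_succ] at h5

/-- the polynomial of the logarithm, for elements with `x ^ (n + 2) = 0` -/
noncomputable def Lg (n : ℕ) : ℚ[X] := (exists_logPoly n).choose

theorem X_dvd_Lg (n : ℕ) : X ∣ Lg n := (exists_logPoly n).choose_spec.1

theorem Lg_coeff_one (n : ℕ) : (Lg n).coeff 1 = 1 := (exists_logPoly n).choose_spec.2.1

theorem EP_Lg (n : ℕ) : X ^ (n + 2) ∣ EP (n + 1) (Lg n) - (1 + X) :=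
  (exists_logPoly n).choose_spec.2.2

variable {A : Type*} [Ring A] [Algebra ℚ A]

/-- logarithm -/
noncomputable def lg (n : ℕ) (w : A) : A := aeval (w - 1) (Lg n)

theorem lg_one (n : ℕ) : lg n (1 : A) = 0 := by
  obtain ⟨q, hq⟩ := X_dvd_Lg n
  rw [lg, hq]; simp

theorem lg_pow_eq_zero (n : ℕ) {w : A} (h : (w - 1) ^ (n + 2) = 0) : (lg n w) ^ (n + 2) = 0 := by
  obtain ⟨q, hq⟩ := X_dvd_Lg n
  have hc : Commute (w - 1) (aeval (w - 1) q) := by
    have := Polynomial.aeval_X (R := ℚ) (w - 1)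
    conv_lhs => rw [← this]
    exact (Commute.all X q).map (aeval (w - 1))
  rw [lg, hq, map_mul, aeval_X, hc.mul_pow, h, zero_mul]

theorem exp_lg (n : ℕ) {w : A} (h : (w - 1) ^ (n + 2) = 0) : IsNilpotent.exp (lg n w) = w := by
  rw [IsNilpotent.exp_eq_sum (lg_pow_eq_zero n h)]
  obtain ⟨q, hq⟩ := EP_Lg n
  have h1 : aeval (w - 1) (EP (n + 1) (Lg n)) = w := by
    have : EP (n + 1) (Lg n) = (1 + X) + X ^ (n + 2) * q := by rw [← hq]; ring
    rw [this]
    simp [h]
  rw [EP, map_sum] at h1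
  simpa [lg] using h1

theorem eq_zero_of_exp_eq_one {d : A} (hd : IsNilpotent d) (h : IsNilpotent.exp d = 1) :
    d = 0 := by
  obtain ⟨k, hk⟩ := hd
  have h1 := IsNilpotent.exp_eq_sum (k := k + 2) (a := d) (by rw [pow_add, hk, zero_mul])
  rw [sum_range_succ', h] at h1
  have h2 : ∑ i ∈ range (k + 1), ((i + 1).factorial : ℚ)⁻¹ • d ^ (i + 1) = 0 := by
    simpa using h1.symm
  rw [sum_range_succ'] at h2
  have h3 : d * (1 + d * ∑ i ∈ range k, ((i + 2).factorial : ℚ)⁻¹ • d ^ i) = 0 := by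
    rw [mul_add, mul_sum, mul_sum]
    simp only [mul_one, mul_smul_comm]
    rw [← h2, add_comm]
    congr 1
    · refine sum_congr rfl fun i _ => ?_
      rw [← pow_succ', ← pow_succ']
    · simp
  have hc : Commute d (∑ i ∈ range k, ((i + 2).factorial : ℚ)⁻¹ • d ^ i) :=
    Commute.sum_right _ _ _ fun i _ => Commute.smul_right ((Commute.refl d).pow_right i) _
  have h4 : IsNilpotent (d * ∑ i ∈ range k, ((i + 2).factorial : ℚ)⁻¹ • d ^ i) :=
    hc.isNilpotent_mul_right ⟨k, hk⟩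
  have h5 := h4.isUnit_one_add
  obtain ⟨u, hu⟩ := h5
  rw [← hu] at h3
  exact (Units.mul_left_eq_zero u).1 h3

theorem exp_sub_one_pow (n : ℕ) {y : A} (h : y ^ (n + 2) = 0) :
    (IsNilpotent.exp y - 1) ^ (n + 2) = 0 := by
  have h1 := IsNilpotent.exp_eq_sum h
  rw [sum_range_succ'] at h1
  have h2 : IsNilpotent.exp y - 1 =
      y * ∑ i ∈ range (n + 1), ((i + 1).factorial : ℚ)⁻¹ • y ^ i := by
    rw [h1, mul_sum]
    simp [pow_succ']
  have hc : Commute y (∑ i ∈ range (n + 1), ((i + 1).factorial : ℚ)⁻¹ • y ^ i) :=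
    Commute.sum_right _ _ _ fun i _ => Commute.smul_right ((Commute.refl y).pow_right i) _
  rw [h2, hc.mul_pow, h, zero_mul]

theorem commute_exp {y z : A} (hy : IsNilpotent y) (h : Commute z y) :
    Commute z (IsNilpotent.exp y) := by
  obtain ⟨k, hk⟩ := hy
  rw [IsNilpotent.exp_eq_sum hk]
  exact Commute.sum_right _ _ _ fun i _ => (h.pow_right i).smul_right _

theorem commute_aeval {y z : A} (h : Commute z y) (p : ℚ[X]) : Commute z (aeval y p) := by
  induction p using Polynomial.induction_on with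
  | C a => rw [aeval_C]; exact (Algebra.commutes a z).symm
  | add p q hp hq => rw [map_add]; exact hp.add_right hq
  | monomial n a _ =>
    rw [map_mul, aeval_C, map_pow, aeval_X]
    exact Commute.mul_right (Algebra.commutes a z).symm (h.pow_right _)

theorem lg_exp (n : ℕ) {y : A} (h : y ^ (n + 2) = 0) : lg n (IsNilpotent.exp y) = y := by
  have hn : IsNilpotent y := ⟨_, h⟩
  have h1 : IsNilpotent.exp (lg n (IsNilpotent.exp y)) = IsNilpotent.exp y :=
    exp_lg n (exp_sub_one_pow n h)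
  have hz : IsNilpotent (lg n (IsNilpotent.exp y)) :=
    ⟨_, lg_pow_eq_zero n (exp_sub_one_pow n h)⟩
  have hc : Commute (lg n (IsNilpotent.exp y)) y := by
    have : Commute y (IsNilpotent.exp y - 1) :=
      (commute_exp hn (Commute.refl y)).sub_right (Commute.one_right y)
    exact (commute_aeval this _).symm
  have h2 : IsNilpotent.exp (lg n (IsNilpotent.exp y) + -y) = 1 := by
    rw [IsNilpotent.exp_add_of_commute hc.neg_right hz hn.neg, h1,
      IsNilpotent.exp_mul_exp_neg_self hn]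
  have h3 : IsNilpotent (lg n (IsNilpotent.exp y) + -y) := by
    have := hc.neg_right.isNilpotent_add hz hn.neg
    exact this
  have := eq_zero_of_exp_eq_one h3 h2
  rw [← sub_eq_add_neg, sub_eq_zero] at this
  exact this

/-- uniqueness of nilpotent logarithms -/
theorem exp_injective {x y : A} (hx : IsNilpotent x) (hy : IsNilpotent y)
    (h : IsNilpotent.exp x = IsNilpotent.exp y) : x = y := by
  obtain ⟨a, ha⟩ := hx
  obtain ⟨b, hb⟩ := hy
  have ha' : x ^ (a + b + 2) = 0 := by rw [show a + b + 2 = a + (b + 2) by ring, pow_add, ha, zero_mul]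
  have hb' : y ^ (a + b + 2) = 0 := by rw [show a + b + 2 = b + (a + 2) by ring, pow_add, hb, zero_mul]
  rw [← lg_exp (a + b) ha', ← lg_exp (a + b) hb', h]

theorem exp_nsmul {x : A} (hx : IsNilpotent x) (m : ℕ) :
    IsNilpotent.exp (m • x) = IsNilpotent.exp x ^ m := by
  induction m with
  | zero => simp
  | succ m ih =>
    rw [succ_nsmul, IsNilpotent.exp_add_of_commute _ _ hx, ih, pow_succ]
    · exact (Commute.refl x).smul_left m
    · exact hx.smul m

end Pool.Agent.Lat
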